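import Pool.Agent.H872R3.LK.Final

/-! Heyting arithmetic is complete for its locally PA Kripke models. -/

set_option autoImplicit false

namespace Pool.Agent.Results.MP_403d16_lc.Completeness

open Pool.Agent.H872R3.KH

/-- There is a Kripke model `W` of Heyting arithmetic such that the classical structure at every
node is a model of Peano arithmetic and such that the sentences forced at all nodes of `W` are
exactly the theorems of Heyting arithmetic. In particular, for every sentence `φ` which Heyting
arithmetic does not prove there is a locally PA Kripke model of Heyting arithmetic which does not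
force `φ`. The same holds for every set `T` of sentences which contains the axioms of Heyting
arithmetic and does not prove `⊥`. -/
theorem result :
    (∃ W : KModel, W.ForcesHA ∧ (∀ k : W.K, ModelsPA (W.str k)) ∧
      ∀ φ : Fm 0, (∀ k : W.K, W.Forces φ k (fun i => i.elim0)) ↔ HAProves φ) ∧
    ∀ T : Set (Fm 0), (∀ α : Fm 0, Ax α → α ∈ T) → ¬ Proves T .bot →
      ∃ W : KModel, (∀ k : W.K, ModelsPA (W.str k)) ∧
        ∀ φ : Fm 0, (∀ k : W.K, W.Forces φ k (fun i => i.elim0)) ↔ Proves T φ := by
  refine ⟨?_, universal⟩
  have hc : ¬ HAProves .bot := fun h =>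
    (model.sound_HA h forcesHA model.nonempty.some :)
  obtain ⟨W, h1, h2⟩ := universal {α | Ax α} (fun α hα => hα) hc
  refine ⟨W, fun k α hα => ?_, h1, h2⟩
  exact (h2 α).2 ⟨[α], by simpa using hα, .hyp (by simp)⟩ k

end Pool.Agent.Results.MP_403d16_lc.Completeness
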